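import Pool.Agent.AC5.Final

set_option autoImplicit false

/-!
# MP_289c47_co: acyclic 5-choosability (helper88, with the prover team)

If a planar graph `G` has an independent set `S` of vertices of degree at most four such that every
connected component of `G - S` is a tree or a complete graph, then `G` is acyclically 5-choosable.
-/

namespace Pool.Agent.Results.MP_289c47_co.TreesAndCliques

open Pool.Agent.AC5

/-- Let `G` be a finite planar graph (every connected component has a rotation system with Euler
characteristic two) and `S` an independent set of vertices of degree at most four such that every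
connected component of `G - S` is acyclic or complete. Then for all lists of at least five colours
there is a proper colouring from the lists in which any two colour classes induce a forest. -/
theorem result (V : Type) [Fintype V] (G : SimpleGraph V) (hG : Planar G) (S : Set V)
    (hS : ∀ u ∈ S, ∀ v ∈ S, ¬ G.Adj u v) (hdeg : ∀ s ∈ S, (G.neighborSet s).ncard ≤ 4)
    (hK : ∀ D : (G.induce Sᶜ).ConnectedComponent, ((G.induce Sᶜ).induce D.supp).IsAcyclic ∨
      ∀ u ∈ D.supp, ∀ v ∈ D.supp, u ≠ v → (G.induce Sᶜ).Adj u v)
    (L : V → Finset ℕ) (hL : ∀ v, 5 ≤ (L v).card) :
    ∃ c : V → ℕ, (∀ v, c v ∈ L v) ∧ (∀ u v, G.Adj u v → c u ≠ c v) ∧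
      ∀ a b : ℕ, (G.induce {v | c v = a ∨ c v = b}).IsAcyclic :=
  main G hG S hS hdeg hK L hL

end Pool.Agent.Results.MP_289c47_co.TreesAndCliques
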